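import Mathlib

/-! Project GE, part DIVB1: nonvanishing of the determinant of a twisted circulant matrix. -/

set_option autoImplicit false

open Polynomial

namespace Pool.Agent.W135.GE

universe u

variable {L : Type u} [Field L]

/-- The residue of `j - i` modulo `N`, for `i, j < N`. -/
def kk (N i j : ℕ) : ℕ := if i ≤ j then j - i else N + j - i

lemma kk_lt {N i j : ℕ} (hi : i < N) (hj : j < N) : kk N i j < N := by
  unfold kk; split_ifs <;> omega

lemma kk_eq {N i j k : ℕ} (hi : i < N) (hj : j < N) (hk : k < N) :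
    kk N i j = k ↔ j = (i + k) % N := by
  unfold kk
  rcases lt_or_ge (i + k) N with h | h
  · rw [Nat.mod_eq_of_lt h]
    split_ifs <;> omega
  · have : (i + k) % N = i + k - N := by
      rw [Nat.mod_eq_sub_mod h, Nat.mod_eq_of_lt (by omega)]
    rw [this]
    split_ifs <;> omega

lemma det_monomial {N : ℕ} (c : Fin N → L) (hc : ∀ i, c i ≠ 0) (π : Equiv.Perm (Fin N))
    (M : Matrix (Fin N) (Fin N) L) (hM : ∀ i j, M i j = if j = π i then c i else 0) :
    M.det ≠ 0 := by
  have h : M.submatrix id π = Matrix.diagonal c := by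
    ext i j
    rw [Matrix.submatrix_apply, hM, Matrix.diagonal_apply]
    by_cases h : i = j
    · rw [h, if_pos rfl]
      simp
    · rw [if_neg h, if_neg]
      intro h'
      exact h (π.injective h').symm
  intro h0
  have := Matrix.det_permute' π M
  rw [h, h0, mul_zero, Matrix.det_diagonal] at this
  exact Finset.prod_ne_zero_iff.2 (fun i _ => hc i) this

/-- The general form, with arbitrary ring homomorphisms `τ i` in place of the powers of `sigma`. -/
theorem det_ne_gen (τ : ℕ → L →+* L) {N : ℕ} (hN : 0 < N) (p : ℕ → L[X])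
    (hp : ∃ k < N, p k ≠ 0) (y : Matrix (Fin N) (Fin N) L[X])
    (h1 : ∀ i j : Fin N, (i : ℕ) ≤ j → y i j = (p (j - i)).map (τ i))
    (h2 : ∀ i j : Fin N, (j : ℕ) < i → y i j = X * (p (N + j - i)).map (τ i)) :
    y.det ≠ 0 := by
  classical
  -- the minimizer
  obtain ⟨k1, ⟨hk1, hpk1⟩, hmin⟩ : ∃ k, (k < N ∧ p k ≠ 0) ∧ ∀ k', (k' < N ∧ p k' ≠ 0) →
      N * (p k).natTrailingDegree + k ≤ N * (p k').natTrailingDegree + k' := by
    obtain ⟨k, hk, hpk⟩ := hp
    obtain ⟨k1, h3, h4⟩ := Finset.exists_min_image ((Finset.range N).filter fun k => p k ≠ 0)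
      (fun k => N * (p k).natTrailingDegree + k) ⟨k, by simp [hk, hpk]⟩
    simp only [Finset.mem_filter, Finset.mem_range] at h3 h4
    exact ⟨k1, h3, h4⟩
  set k0 := N * (p k1).natTrailingDegree + k1 with hk0
  -- the matrix y'
  set y' : Matrix (Fin N) (Fin N) L[X] := fun i j =>
    expand L N ((p (kk N i j)).map (τ i)) * X ^ (kk N i j) with hy'
  have hcoef : ∀ (i j : Fin N) (d : ℕ), (y' i j).coeff d =
      if kk N i j ≤ d then (if N ∣ d - kk N i j then
        τ i ((p (kk N i j)).coeff ((d - kk N i j) / N)) else 0) else 0 := by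
    intro i j d
    rw [hy']
    simp only
    rw [coeff_mul_X_pow']
    split_ifs with a b
    · rw [coeff_expand hN, if_pos b, coeff_map]
    · rw [coeff_expand hN, if_neg b]
    · rfl
  have hlow : ∀ (i j : Fin N) (d : ℕ), d < k0 → (y' i j).coeff d = 0 := by
    intro i j d hd
    rw [hcoef]
    split_ifs with a b
    · by_cases hz : (p (kk N i j)).coeff ((d - kk N i j) / N) = 0
      · rw [hz, map_zero]
      · exfalso
        have h3 : (p (kk N i j)).natTrailingDegree ≤ (d - kk N i j) / N :=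
          natTrailingDegree_le_of_ne_zero hz
        have h4 := hmin (kk N i j) ⟨kk_lt i.2 j.2, fun h => hz (by rw [h]; simp)⟩
        have h5 : N * ((d - kk N i j) / N) = d - kk N i j := Nat.mul_div_cancel' b
        have h6 := Nat.mul_le_mul_left N h3
        omega
    · rfl
    · rfl
  have htop : ∀ (i j : Fin N), (y' i j).coeff k0 =
      if kk N i j = k1 then τ i (p k1).trailingCoeff else 0 := by
    intro i j
    rw [hcoef]
    have hlt := kk_lt i.2 j.2
    by_cases h3 : kk N i j = k1
    · rw [if_pos h3, h3, if_pos (by omega)]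
      have h4 : k0 - k1 = N * (p k1).natTrailingDegree := by omega
      rw [h4, if_pos (dvd_mul_right _ _), Nat.mul_div_cancel_left _ hN]
      rfl
    · rw [if_neg h3]
      split_ifs with a b
      · exfalso
        obtain ⟨q, hq⟩ := b
        have h4 : kk N i j + N * q = k1 + N * (p k1).natTrailingDegree := by omega
        have h5 : (kk N i j + N * q) % N = (k1 + N * (p k1).natTrailingDegree) % N := by rw [h4]
        rw [Nat.add_mul_mod_self_left, Nat.add_mul_mod_self_left, Nat.mod_eq_of_lt hlt,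
          Nat.mod_eq_of_lt hk1] at h5
        exact h3 h5
      · rfl
      · rfl
  -- det y' ≠ 0
  have hdet' : y'.det ≠ 0 := by
    have hdvd : ∀ i j, ∃ z, y' i j = X ^ k0 * z := fun i j =>
      X_pow_dvd_iff.2 (hlow i j)
    choose z hz using hdvd
    have e1 : y' = (X ^ k0 : L[X]) • (Matrix.of z) := by
      ext1 i j
      rw [Matrix.smul_apply, smul_eq_mul, Matrix.of_apply, ← hz]
    have hz0 : (Matrix.of z).det ≠ 0 := by
      intro h0
      have h3 := congrArg (constantCoeff (R := L)) h0
      rw [RingHom.map_det, map_zero] at h3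
      have : NeZero N := ⟨hN.ne'⟩
      refine det_monomial (fun i => τ i (p k1).trailingCoeff) (fun i => ?_)
        (Equiv.addRight (⟨k1, hk1⟩ : Fin N)) _ (fun i j => ?_) h3
      · rw [Ne, map_eq_zero]
        exact fun h => hpk1 (trailingCoeff_eq_zero.1 h)
      · have h4 := htop i j
        rw [hz i j, coeff_X_pow_mul', if_pos le_rfl, Nat.sub_self] at h4
        have h5 : (constantCoeff.mapMatrix (Matrix.of z)) i j = (z i j).coeff 0 := rfl
        rw [h5, h4]
        have h6 : (kk N i j = k1) ↔ (j = (Equiv.addRight (⟨k1, hk1⟩ : Fin N)) i) := by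
          rw [kk_eq i.2 j.2 hk1, Fin.ext_iff, Equiv.coe_addRight, Fin.val_add]
        by_cases h7 : kk N i j = k1
        · rw [if_pos h7, if_pos (h6.1 h7)]
        · rw [if_neg h7, if_neg (fun h => h7 (h6.2 h))]
    rw [e1, Matrix.det_smul]
    exact mul_ne_zero (pow_ne_zero _ (pow_ne_zero _ X_ne_zero)) hz0
  -- comparison
  intro hy0
  have hE : ((expand L N).mapMatrix y).det = 0 := by
    rw [← AlgHom.map_det, hy0, map_zero]
  have hcomm : Matrix.diagonal (fun i : Fin N => (X : L[X]) ^ (i : ℕ)) * y' =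
      (expand L N).mapMatrix y * Matrix.diagonal (fun i : Fin N => (X : L[X]) ^ (i : ℕ)) := by
    ext1 i j
    rw [Matrix.diagonal_mul, Matrix.mul_diagonal]
    have h5 : ((expand L N).mapMatrix y) i j = expand L N (y i j) := rfl
    rw [h5, hy']
    simp only
    have hi := i.2
    have hj := j.2
    rcases le_or_gt (i : ℕ) j with h3 | h3
    · have h4 : kk N i j = j - i := by unfold kk; rw [if_pos h3]
      rw [h1 i j h3, h4]
      have h6 : (X : L[X]) ^ (j : ℕ) = X ^ (i : ℕ) * X ^ ((j : ℕ) - i) := by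
        rw [← pow_add]; congr 1; omega
      rw [h6]
      ring
    · have h4 : kk N i j = N + j - i := by unfold kk; rw [if_neg (not_le.2 h3)]
      rw [h2 i j h3, h4, map_mul, expand_X]
      have h6 : (X : L[X]) ^ N * X ^ (j : ℕ) = X ^ (i : ℕ) * X ^ (N + (j : ℕ) - i) := by
        rw [← pow_add, ← pow_add]; congr 1; omega
      linear_combination (-(expand L N) ((p (N + j - i)).map (τ i))) * h6
  have h3 := congrArg Matrix.det hcomm
  rw [Matrix.det_mul, Matrix.det_mul, hE, zero_mul, Matrix.det_diagonal] at h3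
  rcases mul_eq_zero.1 h3 with h4 | h4
  · rw [Finset.prod_eq_zero_iff] at h4
    obtain ⟨i, -, h5⟩ := h4
    exact pow_ne_zero _ X_ne_zero h5
  · exact hdet' h4

/-- The same, with the first row indexed by `Fin N`. -/
theorem det_ne_fin (τ : ℕ → L →+* L) {N : ℕ} (hN : 0 < N) (p : Fin N → L[X])
    (hp : ∃ k, p k ≠ 0) (y : Matrix (Fin N) (Fin N) L[X])
    (h1 : ∀ (i j : Fin N) (h : (i : ℕ) ≤ j),
      y i j = (p ⟨j - i, by omega⟩).map (τ i))
    (h2 : ∀ (i j : Fin N) (h : (j : ℕ) < i),
      y i j = X * (p ⟨N + j - i, by omega⟩).map (τ i)) :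
    y.det ≠ 0 := by
  refine det_ne_gen τ hN (fun k => if h : k < N then p ⟨k, h⟩ else 0) ?_ y ?_ ?_
  · obtain ⟨k, hk⟩ := hp
    exact ⟨k, k.2, by simpa using hk⟩
  · intro i j h
    rw [h1 i j h, dif_pos (by omega)]
  · intro i j h
    rw [h2 i j h, dif_pos (by omega)]

/-- The matrix with first row `p` in the fixed algebra. -/
noncomputable def ymat (σ : L ≃+* L) (N : ℕ) (p : ℕ → L[X]) : Matrix (Fin N) (Fin N) L[X] :=
  fun i j => if (i : ℕ) ≤ j then (p (j - i)).map ((σ ^ (i : ℕ) : L ≃+* L) : L →+* L)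
    else X * (p (N + j - i)).map ((σ ^ (i : ℕ) : L ≃+* L) : L →+* L)

/-- The determinant of the matrix with a nonzero first row is nonzero. -/
theorem det_ne (σ : L ≃+* L) (N : ℕ) (hN : 0 < N) (p : ℕ → L[X]) (hp : ∃ k < N, p k ≠ 0) :
    (ymat σ N p).det ≠ 0 :=
  det_ne_gen (fun i => ((σ ^ i : L ≃+* L) : L →+* L)) hN p hp _
    (fun i j h => by unfold ymat; rw [if_pos h])
    (fun i j h => by unfold ymat; rw [if_neg (not_le.2 h)])

end Pool.Agent.W135.GE
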