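import Pool.Agent.W276.GE.Stm

/-!
GE-PROD: the height of a point is at most the product of the heights of its affine coordinates.
-/

set_option autoImplicit false

open Height NumberField

namespace Pool.Agent.W135.GE

open Pool.Agent.W276.GE

/-- GE-PROD. -/
theorem prod : S_prod := by
  intro K _ _ n P j hj
  classical
  have hx : ∀ a : Fin n, (![P a / P j, 1] : Fin 2 → K) ≠ 0 := by
    intro a h
    have := congrFun h 1
    simp at this
  have h1 := mulHeight_fun_prod_eq (K := K) (α := Fin n) (ι := fun _ => Fin 2)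
    (x := fun a => ![P a / P j, 1]) hx
  have h2 := mulHeight_comp_le (K := K) (fun (i : Fin n) (a : Fin n) => if a = i then (0 : Fin 2) else 1)
    (fun I : Fin n → Fin 2 => ∏ a, (![P a / P j, 1] : Fin 2 → K) (I a))
  have h3 : ((fun I : Fin n → Fin 2 => ∏ a, (![P a / P j, 1] : Fin 2 → K) (I a)) ∘
      (fun (i : Fin n) (a : Fin n) => if a = i then (0 : Fin 2) else 1)) = (P j)⁻¹ • P := by
    funext i
    show ∏ a, (![P a / P j, 1] : Fin 2 → K) (if a = i then (0 : Fin 2) else 1) = (P j)⁻¹ * P i
    rw [Finset.prod_eq_single i]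
    · simp [div_eq_inv_mul]
    · intro b _ hb
      simp [hb]
    · intro h
      exact absurd (Finset.mem_univ i) h
  rw [h3, mulHeight_smul_eq_mulHeight _ (inv_ne_zero hj), h1] at h2
  refine h2.trans (le_of_eq ?_)
  rw [← Finset.mul_prod_erase _ _ (Finset.mem_univ j)]
  have h4 : mulHeight (![P j / P j, 1] : Fin 2 → K) = 1 := by
    rw [← mulHeight₁_eq_mulHeight, div_self hj, mulHeight₁_one]
  rw [h4, one_mul]
  refine Finset.prod_congr rfl fun i _ => ?_
  rw [mulHeight₁_eq_mulHeight]

end Pool.Agent.W135.GE
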